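import Pool.Agent.helper48.AN.SpecA

/-!
# Project an, part A, module CB: Cartier's identity
-/

namespace AN

open scoped Classical

noncomputable section

variable {R : Type} [CommRing R]

theorem CB_charP (p : ℕ) [CharP R p] : CharP (LS R) p := by
  refine charP_of_injective_ringHom (f := (LS.C : R →+* LS R)) ?_ p
  exact HahnSeries.C_injective

theorem CB_mono_pow (n : ℤ) (c : R) (j : ℕ) : (mono n c) ^ j = mono (j * n) (c ^ j) := by
  induction j with
  | zero => simp [← C_eq_mono]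
  | succ j ih =>
    rw [pow_succ, ih, mono_mul_mono, pow_succ]
    congr 1
    push_cast
    ring

theorem CB_binom (p : ℕ) [hp : Fact p.Prime] (b c : LS R) : ∃ Q : LS R,
    (b + c) ^ (p - 1) * (dd b + dd c) = b ^ (p - 1) * dd b + c ^ (p - 1) * dd c + dd Q := by
  obtain ⟨q, rfl⟩ : ∃ q, p = q + 1 := ⟨p - 1, by have := hp.out.pos; omega⟩
  rw [Nat.add_sub_cancel]
  refine ⟨∑ i ∈ Finset.range q, ((q + 1).choose (i + 1) / (q + 1)) • (b ^ (i + 1) * c ^ (q - i)), ?_⟩
  have hterm : ∀ i ∈ Finset.range q,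
      dd (((q + 1).choose (i + 1) / (q + 1)) • (b ^ (i + 1) * c ^ (q - i))) =
        (b ^ i * c ^ (q - i) * (q.choose i : LS R)) * dd b +
          (b ^ (i + 1) * c ^ (q - (i + 1)) * (q.choose (i + 1) : LS R)) * dd c := by
    intro i hi
    have hi' := Finset.mem_range.1 hi
    obtain ⟨N, hN⟩ : (q + 1) ∣ (q + 1).choose (i + 1) :=
      Nat.Prime.dvd_choose_self hp.out (by omega) (by omega)
    rw [hN, Nat.mul_div_cancel_left _ (by omega)]
    have e1 : N * (i + 1) = q.choose i := by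
      have h1 := Nat.add_one_mul_choose_eq q i
      rw [hN, mul_assoc] at h1
      exact (Nat.eq_of_mul_eq_mul_left (by omega) h1).symm
    have e2 : N * (q - i) = q.choose (i + 1) := by
      have h1 := Nat.choose_mul_succ_eq q (i + 1)
      rw [hN, mul_comm, mul_assoc, show q + 1 - (i + 1) = q - i by omega] at h1
      exact (Nat.eq_of_mul_eq_mul_left (by omega) h1).symm
    have c1 : (N : LS R) * ((i + 1 : ℕ) : LS R) = (q.choose i : LS R) := by
      rw [← Nat.cast_mul, e1]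
    have c2 : (N : LS R) * ((q - i : ℕ) : LS R) = (q.choose (i + 1) : LS R) := by
      rw [← Nat.cast_mul, e2]
    rw [map_nsmul, dd_mul, dd_pow, dd_pow, nsmul_eq_mul, ← c1, ← c2, Nat.add_sub_cancel,
      show q - i - 1 = q - (i + 1) by omega]
    ring
  rw [map_sum, Finset.sum_congr rfl hterm, Finset.sum_add_distrib, ← Finset.sum_mul,
    ← Finset.sum_mul]
  have s1 : ∑ i ∈ Finset.range q, b ^ i * c ^ (q - i) * (q.choose i : LS R) =
      (b + c) ^ q - b ^ q := by
    rw [add_pow, Finset.sum_range_succ]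
    simp
  have s2 : ∑ i ∈ Finset.range q, b ^ (i + 1) * c ^ (q - (i + 1)) * (q.choose (i + 1) : LS R) =
      (b + c) ^ q - c ^ q := by
    rw [add_pow, Finset.sum_range_succ']
    simp
  rw [s1, s2]
  ring

/-- the difference of the two sides of Cartier's identity -/
def CB_Phi (p : ℕ) (b : LS R) : LS R := b ^ (p - 1) * dd b - (dd b) ^ p * mono ((p : ℤ) - 1) 1

theorem CB_add (p : ℕ) [hp : Fact p.Prime] [CharP R p] (b c : LS R) : ∃ Q : LS R,
    CB_Phi p (b + c) = CB_Phi p b + CB_Phi p c + dd Q := by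
  obtain ⟨Q, hQ⟩ := CB_binom p b c
  haveI := CB_charP (R := R) p
  refine ⟨Q, ?_⟩
  unfold CB_Phi
  rw [map_add, hQ, add_pow_char]
  ring

theorem CB_int (p : ℕ) [hp : Fact p.Prime] [CharP R p] (n : ℤ) : ((n : ℤ) : R) ^ p = n := by
  have h : ((n : ℤ) : ZMod p) ^ p = n := ZMod.pow_card _
  have h2 := congrArg (ZMod.castHom (dvd_refl p) R) h
  rw [map_pow, map_intCast] at h2
  exact h2

theorem CB_mono (p : ℕ) [hp : Fact p.Prime] [CharP R p] (n : ℤ) (c : R) :
    CB_Phi p (mono n c) = 0 := by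
  unfold CB_Phi
  have h1 : 1 ≤ p := hp.out.one_le
  rw [dd_mono, CB_mono_pow, CB_mono_pow, mono_mul_mono, mono_mul_mono, mul_pow, CB_int, mul_one,
    Nat.cast_sub h1]
  have e1 : ((p : ℤ) - (1 : ℕ)) * n + (n - 1) = (p : ℤ) * (n - 1) + ((p : ℤ) - 1) := by
    push_cast
    ring
  have e2 : c ^ (p - 1) * ((n : R) * c) = (n : R) * c ^ p := by
    rw [mul_left_comm, ← pow_succ, Nat.sub_add_cancel h1]
  rw [e1, e2, sub_self]

theorem CB_sum (p : ℕ) [hp : Fact p.Prime] [CharP R p] (S : Finset ℤ) (c : ℤ → R) :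
    ∃ y : LS R, CB_Phi p (∑ i ∈ S, mono i (c i)) = dd y := by
  induction S using Finset.induction_on with
  | empty =>
    refine ⟨0, ?_⟩
    unfold CB_Phi
    rw [Finset.sum_empty, map_zero, mul_zero, zero_pow hp.out.ne_zero, zero_mul, sub_self]
  | insert i S hi ih =>
    obtain ⟨y, hy⟩ := ih
    obtain ⟨Q, hQ⟩ := CB_add p (mono i (c i)) (∑ i ∈ S, mono i (c i))
    refine ⟨y + Q, ?_⟩
    rw [Finset.sum_insert hi, hQ, CB_mono, hy, zero_add, map_add]

theorem CB_exact (p : ℕ) [CharP R p] (y : LS R) (m : ℤ) (hm : (p : ℤ) ∣ m + 1) :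
    cf (dd y) m = 0 := by
  rw [cf_dd, (CharP.intCast_eq_zero_iff R p (m + 1)).2 hm, zero_mul]

theorem CB_pow_GE {M : ℤ} {f : LS R} (hf : f ∈ GE R M) (j : ℕ) : f ^ j ∈ GE R (j * M) := by
  induction j with
  | zero => simpa using (one_mem_PS (R := R))
  | succ j ih =>
    rw [pow_succ]
    have h := GE_mul ih hf
    have e : (j : ℤ) * M + M = ((j + 1 : ℕ) : ℤ) * M := by
      push_cast
      ring
    rwa [e] at h

theorem CB_GE (p : ℕ) [hp : Fact p.Prime] {M : ℤ} {f : LS R} (hf : f ∈ GE R M) :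
    CB_Phi p f ∈ GE R (p * M - 1) := by
  have h1 : 1 ≤ p := hp.out.one_le
  unfold CB_Phi
  refine Submodule.sub_mem _ ?_ ?_
  · have h := GE_mul (CB_pow_GE hf (p - 1)) (dd_mem_GE hf)
    have e : ((p - 1 : ℕ) : ℤ) * M + (M - 1) = p * M - 1 := by
      rw [Nat.cast_sub h1]
      push_cast
      ring
    rwa [e] at h
  · have h := GE_mul (CB_pow_GE (dd_mem_GE hf) p) (mono_mem_GE ((p : ℤ) - 1) (1 : R))
    have e : (p : ℤ) * (M - 1) + ((p : ℤ) - 1) = p * M - 1 := by ring
    rwa [e] at h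

theorem CB (hCA : CA_stmt) : CB_stmt := by
  intro p hp R _ _ b
  have key : ∀ m : ℤ, (p : ℤ) ∣ m + 1 → cf (CB_Phi p b) m = 0 := by
    intro m hm
    obtain ⟨a, ha⟩ := exists_lb b
    set M : ℤ := max a (|m| + 2) with hMdef
    have hM1 : a ≤ M := le_max_left _ _
    have hM2 : |m| + 2 ≤ M := le_max_right _ _
    set P : LS R := ∑ i ∈ Finset.Ico a M, mono i (cf b i) with hP
    have hcP : ∀ m, cf P m = if a ≤ m ∧ m < M then cf b m else 0 := by
      intro m
      simp only [P, cf_sum, cf_mono]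
      rw [Finset.sum_ite_eq]
      simp [Finset.mem_Ico]
    have hQ : b - P ∈ GE R M := by
      intro m hm
      rw [cf_sub, hcP]
      by_cases h : a ≤ m
      · rw [if_pos ⟨h, hm⟩, sub_self]
      · rw [if_neg (fun h' => h h'.1), ha m (by omega), sub_zero]
    obtain ⟨y, hy⟩ := CB_sum p (Finset.Ico a M) (fun i => cf b i)
    obtain ⟨Q, hQ'⟩ := CB_add p P (b - P)
    rw [add_sub_cancel] at hQ'
    rw [hQ', cf_add, cf_add, hP, hy, CB_exact p y m hm, CB_exact p Q m hm, zero_add, add_zero]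
    refine CB_GE p hQ m ?_
    have hp2 : (2 : ℤ) ≤ p := by exact_mod_cast hp.out.two_le
    have h3 := abs_nonneg m
    have h4 := le_abs_self m
    nlinarith
  obtain ⟨y, hy⟩ := (hCA p R (CB_Phi p b)).2 key
  refine ⟨y, ?_⟩
  rw [← hy]
  unfold CB_Phi
  ring

end

end AN
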