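import Pool.Agent.helper48.AN.SpecD

/-!
# Project an, part D, module DG: decomposition degree by degree
-/

namespace AN

open scoped Classical
open MvPowerSeries (constantCoeff coeff)

noncomputable section

variable {k : Type} [Field k] {N : ℕ}

/-- the partial solutions -/
def DG_s (F : KK k N → KK k N) (pU : LS k → LS k) (x : KK k N) : ℕ → KK k N
  | 0 => 0
  | n + 1 => fun α => if α.degree = n then pU (coeff α x - coeff α (F (DG_s F pU x n)))
      else coeff α (DG_s F pU x n)

theorem DG_s_succ (F : KK k N → KK k N) (pU : LS k → LS k) (x : KK k N) (n : ℕ)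
    (α : Fin N →₀ ℕ) : coeff α (DG_s F pU x (n + 1)) =
      if α.degree = n then pU (coeff α x - coeff α (F (DG_s F pU x n)))
        else coeff α (DG_s F pU x n) := rfl

theorem DG_s_zero (F : KK k N → KK k N) (pU : LS k → LS k) (x : KK k N) :
    ∀ (n : ℕ) (α : Fin N →₀ ℕ), n ≤ α.degree → coeff α (DG_s F pU x n) = 0
  | 0, α, _ => map_zero (coeff α)
  | n + 1, α, h => by
    rw [DG_s_succ, if_neg (by omega)]
    exact DG_s_zero F pU x n α (by omega)

theorem DG_s_stab (F : KK k N → KK k N) (pU : LS k → LS k) (x : KK k N) (α : Fin N →₀ ℕ) :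
    ∀ m : ℕ, α.degree < m → coeff α (DG_s F pU x m) = coeff α (DG_s F pU x (α.degree + 1))
  | 0, h => absurd h (by omega)
  | m + 1, h => by
    by_cases h1 : α.degree = m
    · rw [h1]
    · rw [DG_s_succ, if_neg h1]
      exact DG_s_stab F pU x α m (by omega)

theorem DG : DG_stmt := by
  intro k _ N F hadd hF U V hUV hUV'
  have hF0 : F 0 = 0 := by
    have h := hadd 0 0
    rw [add_zero] at h
    exact left_eq_add.1 h
  constructor
  · intro x
    have hdec : ∀ z : LS k, ∃ u ∈ U, ∃ v ∈ V, u + v = z := by
      intro z
      have hz : z ∈ U ⊔ V := by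
        rw [hUV]
        exact Submodule.mem_top
      exact Submodule.mem_sup.1 hz
    choose pU hpU pV hpV hsum using hdec
    set u : KK k N := fun α => coeff α (DG_s F pU x (α.degree + 1)) with hu
    have hcu : ∀ α, coeff α u = coeff α (DG_s F pU x (α.degree + 1)) := fun α => rfl
    have hcu' : ∀ α, coeff α u = pU (coeff α x - coeff α (F (DG_s F pU x α.degree))) := by
      intro α
      rw [hcu, DG_s_succ, if_pos rfl]
    have hlow : ∀ (n : ℕ) (α : Fin N →₀ ℕ), α.degree < n →
        coeff α (u - DG_s F pU x n) = 0 := by
      intro n α hα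
      rw [map_sub, hcu, DG_s_stab F pU x α n hα, sub_self]
    have hFu : ∀ α, coeff α (F u) = coeff α (F (DG_s F pU x α.degree)) + coeff α u := by
      intro α
      have h1 : F u = F (DG_s F pU x α.degree) + F (u - DG_s F pU x α.degree) := by
        rw [← hadd, add_sub_cancel]
      rw [h1, map_add, hF α.degree _ (hlow α.degree) α le_rfl, map_sub,
        DG_s_zero F pU x α.degree α le_rfl, sub_zero]
    refine ⟨u, x - F u, ?_, ?_, by rw [add_sub_cancel]⟩
    · intro α
      rw [hcu']
      exact hpU _
    · intro α
      have h1 : coeff α (x - F u) = pV (coeff α x - coeff α (F (DG_s F pU x α.degree))) := by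
        rw [map_sub, hFu, hcu', ← sub_sub, sub_eq_iff_eq_add, add_comm]
        exact (hsum _).symm
      rw [h1]
      exact hpV _
  · intro u v hu hv huv
    have key : ∀ (n : ℕ) (α : Fin N →₀ ℕ), α.degree < n → coeff α u = 0 := by
      intro n
      induction n with
      | zero =>
        intro α hα
        omega
      | succ n ih =>
        intro α hα
        have h1 := hF n u ih α (by omega)
        have h2 : coeff α (F u) + coeff α v = 0 := by
          rw [← map_add, huv, map_zero]
        rw [h1] at h2
        have h3 : coeff α u ∈ U ⊓ V := by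
          refine ⟨hu α, ?_⟩
          rw [eq_neg_of_add_eq_zero_left h2]
          exact V.neg_mem (hv α)
        rw [hUV'] at h3
        exact h3
    have hu0 : u = 0 := by
      ext1 α
      rw [key (α.degree + 1) α (by omega), map_zero]
    refine ⟨hu0, ?_⟩
    rw [hu0, hF0, zero_add] at huv
    exact huv

end

end AN
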