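import Pool.Agent.helper48.AN.SpecP

/-!
# Project an, part P, module PO1: a surjective hom to `k[[X]]` which does not kill a given element
-/

namespace AN

open scoped Classical
open MvPowerSeries (constantCoeff)

noncomputable section

/-- the images of the variables -/
def PO1_a {k : Type} [Field k] {n : ℕ} (l : Fin n → k) : Fin n → PowerSeries k := fun i =>
  PowerSeries.C (l i) * PowerSeries.X

theorem PO1_sub {k : Type} [Field k] {n : ℕ} (l : Fin n → k) :
    MvPowerSeries.HasSubst (S := k) (τ := Unit) (PO1_a l) :=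
  MvPowerSeries.hasSubst_of_constantCoeff_zero fun i => by
    change PowerSeries.constantCoeff (PowerSeries.C (l i) * PowerSeries.X) = 0
    simp

/-- the hom -/
def PO1_hom {k : Type} [Field k] {n : ℕ} (l : Fin n → k) : BB k n →ₐ[k] PowerSeries k :=
  MvPowerSeries.substAlgHom (PO1_sub l)

theorem PO1_prod {k : Type} [Field k] {n : ℕ} (l : Fin n → k) (d : Fin n →₀ ℕ) (m : ℕ) :
    PowerSeries.coeff m (d.prod fun s e => (PO1_a l s) ^ e) =
      if ∑ i, d i = m then ∏ i, l i ^ d i else 0 := by
  have h1 : (d.prod fun s e => (PO1_a l s) ^ e) =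
      PowerSeries.C (∏ i, l i ^ d i) * PowerSeries.X ^ (∑ i, d i) := by
    rw [Finsupp.prod_fintype _ _ (fun i => pow_zero _), map_prod, ← Finset.prod_pow_eq_pow_sum,
      ← Finset.prod_mul_distrib]
    refine Finset.prod_congr rfl fun i _ => ?_
    rw [PO1_a, mul_pow, map_pow]
  rw [h1, PowerSeries.coeff_C_mul, PowerSeries.coeff_X_pow]
  by_cases h : ∑ i, d i = m
  · rw [if_pos h, if_pos h.symm, mul_one]
  · rw [if_neg h, if_neg (Ne.symm h), mul_zero]

theorem PO1_coeff {k : Type} [Field k] {n : ℕ} (l : Fin n → k) (f : BB k n) (m : ℕ) :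
    PowerSeries.coeff m (PO1_hom l f) =
      ∑ d ∈ Finset.finsuppAntidiag Finset.univ m, MvPowerSeries.coeff d f * ∏ i, l i ^ d i := by
  have h1 : PowerSeries.coeff m (PO1_hom l f) =
      finsum (fun d => MvPowerSeries.coeff d f •
        (PowerSeries.coeff m (d.prod fun s e => (PO1_a l s) ^ e))) := by
    have h2 := MvPowerSeries.coeff_subst (PO1_sub l) f (Finsupp.single () m)
    rw [← MvPowerSeries.substAlgHom_apply (PO1_sub l)] at h2
    exact h2
  rw [h1, finsum_eq_sum_of_support_subset (s := Finset.finsuppAntidiag Finset.univ m)]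
  · refine Finset.sum_congr rfl fun d hd => ?_
    rw [PO1_prod, if_pos (Finset.mem_finsuppAntidiag.1 hd).1, smul_eq_mul]
  · intro d hd
    rw [Finset.mem_coe, Finset.mem_finsuppAntidiag]
    refine ⟨?_, Finset.subset_univ _⟩
    by_contra hc
    apply hd
    simp only
    rw [PO1_prod, if_neg hc, smul_zero]

theorem PO1 : PO1_stmt := by
  intro k _ _ n c hc
  obtain ⟨d₀, hd₀⟩ : ∃ d, MvPowerSeries.coeff d c ≠ 0 := by
    by_contra h
    push Not at h
    apply hc
    ext d
    rw [h d, map_zero]
  set m := ∑ i, d₀ i with hm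
  set F : MvPolynomial (Fin (n + 1)) k := ∑ d ∈ Finset.finsuppAntidiag Finset.univ m,
    MvPolynomial.monomial d (MvPowerSeries.coeff d c) with hF
  have hF0 : F ≠ 0 := by
    intro h
    apply hd₀
    have h1 : MvPolynomial.coeff d₀ F = MvPowerSeries.coeff d₀ c := by
      rw [hF, MvPolynomial.coeff_sum, Finset.sum_eq_single d₀]
      · rw [MvPolynomial.coeff_monomial, if_pos rfl]
      · intro d _ hne
        rw [MvPolynomial.coeff_monomial, if_neg hne]
      · intro hn
        exact absurd (Finset.mem_finsuppAntidiag.2 ⟨hm.symm, Finset.subset_univ _⟩) hn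
    rw [← h1, h, MvPolynomial.coeff_zero]
  obtain ⟨l, hl⟩ : ∃ l : Fin (n + 1) → k, MvPolynomial.eval l (F * MvPolynomial.X 0) ≠ 0 := by
    by_contra h
    push Not at h
    have h1 : F * MvPolynomial.X 0 = 0 := by
      refine MvPolynomial.funext fun x => ?_
      rw [h x, map_zero]
    exact mul_ne_zero hF0 (MvPolynomial.X_ne_zero 0) h1
  rw [map_mul, MvPolynomial.eval_X] at hl
  have hl0 : l 0 ≠ 0 := right_ne_zero_of_mul hl
  have hlF : MvPolynomial.eval l F ≠ 0 := left_ne_zero_of_mul hl
  refine ⟨PO1_hom l, ?_, ?_⟩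
  · intro g
    refine ⟨(fun d : Fin (n + 1) →₀ ℕ => if d = Finsupp.single 0 (d 0) then
      PowerSeries.coeff (d 0) g * ((l 0)⁻¹) ^ (d 0) else 0 : MvPowerSeries (Fin (n + 1)) k), ?_⟩
    ext m
    rw [PO1_coeff, Finset.sum_eq_single (Finsupp.single 0 m)]
    · rw [MvPowerSeries.coeff_apply, if_pos (by simp), Finsupp.single_eq_same,
        Finset.prod_eq_single 0]
      · rw [Finsupp.single_eq_same, mul_assoc, ← mul_pow, inv_mul_cancel₀ hl0, one_pow, mul_one]
      · intro i _ hi
        rw [Finsupp.single_eq_of_ne hi, pow_zero]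
      · intro h
        exact absurd (Finset.mem_univ _) h
    · intro d hd hne
      have h1 := (Finset.mem_finsuppAntidiag.1 hd).1
      rw [MvPowerSeries.coeff_apply, if_neg, zero_mul]
      intro h2
      apply hne
      have h3 : d 0 = m := by
        rw [← h1, h2]
        rw [Finset.sum_eq_single 0]
        · intro i _ hi
          rw [Finsupp.single_eq_of_ne hi]
        · intro h
          exact absurd (Finset.mem_univ _) h
      rw [h2, h3]
    · intro h
      exfalso
      apply h
      rw [Finset.mem_finsuppAntidiag]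
      refine ⟨?_, Finset.subset_univ _⟩
      rw [Finset.sum_eq_single 0]
      · rw [Finsupp.single_eq_same]
      · intro i _ hi
        rw [Finsupp.single_eq_of_ne hi]
      · intro h
        exact absurd (Finset.mem_univ _) h
  · intro h
    apply hlF
    have h1 := PO1_coeff l c m
    rw [h, map_zero] at h1
    rw [hF, map_sum, h1]
    refine Finset.sum_congr rfl fun d _ => ?_
    rw [MvPolynomial.eval_monomial, Finsupp.prod_fintype _ _ (fun i => pow_zero _)]

end

end AN
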